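import Mathlib
import Pool.Agent.H20.G.R_pool_sql_team_seeded_63374d34.N684.BK.Stm

/-!
Project BK (helper684), part COM: common zeros of random polynomials.
-/

set_option autoImplicit false

open MvPolynomial Filter
open scoped ENNReal

namespace Pool.Agent.N678.BK.COM

open Pool.Agent.N684.BK

lemma finite_exps {N : ℕ} {wt : Fin N → ℕ} (h : ∀ i, 1 ≤ wt i) (K : ℕ) :
    {m : Fin N →₀ ℕ | wd wt m ≤ K}.Finite := by
  refine (Set.finite_Iic (Finsupp.equivFunOnFinite.symm fun _ : Fin N => K)).subset ?_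
  intro m hm
  rw [Set.mem_Iic]
  intro i
  have h1 : wt i * m i ≤ wd wt m :=
    Finset.single_le_sum (f := fun i => wt i * m i) (fun _ _ => Nat.zero_le _) (Finset.mem_univ i)
  have h2 : m i ≤ wt i * m i := Nat.le_mul_of_pos_left _ (h i)
  simpa using h2.trans (h1.trans hm)

lemma finite_PW {F : Type} [Field F] [Finite F] {N : ℕ} {wt : Fin N → ℕ} (h : ∀ i, 1 ≤ wt i)
    (K : ℕ) : Finite (PW F wt K) := by
  have := (finite_exps h K).to_subtype
  refine Finite.of_injective (β := {m : Fin N →₀ ℕ | wd wt m ≤ K} → F)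
    (fun p m => coeff m.1 p.1) ?_
  intro p q hpq
  apply Subtype.ext
  ext m
  by_cases hm : m ∈ {m : Fin N →₀ ℕ | wd wt m ≤ K}
  · exact congrFun hpq ⟨m, hm⟩
  · have hz : ∀ r : PW F wt K, coeff m r.1 = 0 := by
      intro r
      by_contra hr
      have h1 : (r.1 : MvPolynomial (Fin N) F) ∈ restrictSupport F {m : Fin N →₀ ℕ | wd wt m ≤ K} := r.2
      rw [mem_restrictSupport_iff] at h1
      exact hm (h1 (by simpa [mem_support_iff] using hr))
    rw [hz, hz]

lemma finite_le {F : Type} [Field F] [Finite F] {N : ℕ} {wt : Fin N → ℕ} (h : ∀ i, 1 ≤ wt i)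
    {K : ℕ} {U : Submodule F (MvPolynomial (Fin N) F)} (hU : U ≤ PW F wt K) : Finite U := by
  have := finite_PW (F := F) h K
  exact Finite.of_injective (Submodule.inclusion hU) (Submodule.inclusion_injective hU)

/-- the number of families with a condition on the first `i` members -/
lemma card_res {N i : ℕ} (hi : i ≤ N) (V : Fin N → Type) [∀ a, Finite (V a)]
    (p : (∀ l : Fin i, V (Fin.castLE hi l)) → Prop) :
    ∃ R : ℕ, Nat.card {w : ∀ a, V a // p (fun l => w (Fin.castLE hi l))} ≤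
      Nat.card {w' : ∀ l : Fin i, V (Fin.castLE hi l) // p w'} * R ∧
      (∏ l : Fin i, Nat.card (V (Fin.castLE hi l))) * R ≤ ∏ a, Nat.card (V a) := by
  refine ⟨Nat.card (∀ a : {a : Fin N // ¬ (a : ℕ) < i}, V a), ?_, ?_⟩
  · rw [← Nat.card_prod]
    refine Nat.card_le_card_of_injective
      (fun w => (⟨fun l => w.1 (Fin.castLE hi l), w.2⟩, fun a => w.1 a)) ?_
    rintro ⟨w, hw⟩ ⟨w', hw'⟩ h
    apply Subtype.ext
    funext a
    simp only [Prod.mk.injEq, Subtype.mk.injEq] at h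
    by_cases ha : (a : ℕ) < i
    · exact congrFun h.1 ⟨a, ha⟩
    · exact congrFun h.2 ⟨a, ha⟩
  · rw [← Nat.card_pi, ← Nat.card_pi, ← Nat.card_prod]
    refine Nat.card_le_card_of_injective
      (fun w a => if ha : (a : ℕ) < i then w.1 ⟨a, ha⟩ else w.2 ⟨a, ha⟩) ?_
    rintro ⟨w, v⟩ ⟨w', v'⟩ h
    apply Prod.ext
    · funext l
      have := congrFun h (Fin.castLE hi l)
      simpa using this
    · funext a
      have := congrFun h a.1
      simpa [a.2] using this

/-- the number of families with one of several properties -/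
lemma card_union {Ω ι : Type} [Finite Ω] [Fintype ι] (p : ι → Ω → Prop) :
    Nat.card {w : Ω // ∃ i, p i w} ≤ ∑ i, Nat.card {w : Ω // p i w} := by
  classical
  rw [← Nat.card_sigma]
  refine Nat.card_le_card_of_injective (fun w => ⟨w.2.choose, w.1, w.2.choose_spec⟩) ?_
  rintro ⟨w, hw⟩ ⟨w', hw'⟩ h
  apply Subtype.ext
  simp only [Sigma.mk.injEq] at h
  obtain ⟨h1, h2⟩ := h
  have key : ∀ (a b : ι) (x : {w : Ω // p a w}) (y : {w : Ω // p b w}), a = b → HEq x y →
      x.1 = y.1 := by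
    rintro a b x y rfl hxy
    rw [eq_of_heq hxy]
  exact key _ _ _ _ h1 h2

lemma wD_pos (s e k D : ℕ) (hD : 1 ≤ D) (i : Fin (s + e + k)) : 1 ≤ wD s e k D i := by
  unfold wD
  split_ifs
  · exact hD
  · exact le_rfl

lemma wD_le (s e k D : ℕ) (hD : 1 ≤ D) (i : Fin (s + e + k)) : wD s e k D i ≤ D := by
  unfold wD
  split_ifs
  · exact le_rfl
  · exact hD

/-- the point with the last coordinates `u` -/
def yv {F : Type} [Field F] (m k : ℕ) (u : Fin k → F) : Fin (m + k) → F :=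
  Fin.append (fun _ : Fin m => (0 : F)) u

lemma yv_eq {F : Type} [Field F] {m k : ℕ} (y : Fin (m + k) → F) (a : Fin (m + k))
    (ha : m ≤ (a : ℕ)) : yv m k (fun j => y (Fin.natAdd m j)) a = y a := by
  obtain ⟨j, rfl⟩ : ∃ j : Fin k, a = Fin.natAdd m j :=
    ⟨⟨(a : ℕ) - m, by omega⟩, by ext; simp; omega⟩
  simp [yv]

/-- the bad event for a number `i` and a vector `u` -/
def Bd {F : Type} [Field F] {m k : ℕ} (U : Fin (m + k) → Submodule F (MvPolynomial (Fin (m + k)) F))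
    (i : ℕ) (u : Fin k → F) (w : ∀ a, U a) : Prop :=
  ∃ Q : Ideal (MvPolynomial (Fin (m + k)) F), Q.IsPrime ∧
    (∀ a : Fin (m + k), m ≤ (a : ℕ) → X a - C (yv m k u a) ∈ Q) ∧
    (∀ l : Fin (m + k), (l : ℕ) < i → (w l : MvPolynomial (Fin (m + k)) F) ∈ Q) ∧
    dimQ Q + i = m + k

/-- the count of the bad event -/
lemma count_bad (hFE : S_FE) (hFIB : S_FIB) (hQU : S_QU) (m k K M s h : ℕ) :
    ∃ c : ℕ → ℕ, ∀ (F : Type) [Field F] [Fintype F] (wt : Fin (m + k) → ℕ),
    (∀ i, 1 ≤ wt i ∧ wt i ≤ M) → (∀ i, 2 * wt i ≤ K) → h + s ≤ (k + 3).choose 2 →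
    ∀ (U : Fin (m + k) → Submodule F (MvPolynomial (Fin (m + k)) F)), (∀ a, Finite (U a)) →
    (∀ i : Fin (m + k), (i : ℕ) < m → U i ≤ PW F wt K ∧
      Module.finrank F (PW F wt K) ≤ Module.finrank F (U i) + s) →
    ∀ (i : ℕ), i < m → ∀ u : Fin k → F,
      Fintype.card F ^ (k * h) * Nat.card {w : ∀ a, U a // Bd U i u w} ≤
        c i * (m.factorial * 2 ^ m) * ∏ a, Nat.card (U a) := by
  obtain ⟨c, hc⟩ := hFE (m + k) M K
  refine ⟨c, ?_⟩
  intro F _ _ wt hwt hK hh U hfin hU i him u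
  obtain ⟨P, hP, hdim, hdeg, hQ⟩ := hFIB F m k wt (fun i => (hwt i).1) (yv m k u)
  have hi : i ≤ m + k := by omega
  have key := hc F wt hwt i h k (k + 1) P hP (fun l : Fin i => U (Fin.castLE hi l))
    (fun l => (hU _ (by simpa using l.2.trans him)).1)
    (by
      intro Q hQp _ hQd l
      exact hQU F (m + k) K s (k + 1) wt (fun i => (hwt i).1) hK Q _ hQp hQd
        (hU _ (by simpa using l.2.trans him)).1 (hU _ (by simpa using l.2.trans him)).2 h hh)
  rw [hdim] at key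
  obtain ⟨R, hR1, hR2⟩ := card_res hi (fun a => U a) (fun w' => ∃ Q : Ideal (MvPolynomial (Fin (m + k)) F),
      Q.IsPrime ∧ P ≤ Q ∧ (∀ l, (w' l : MvPolynomial (Fin (m + k)) F) ∈ Q) ∧ k + 1 ≤ dimQ Q ∧
        m + k ≤ dimQ Q + i)
  have h1 : Nat.card {w : ∀ a, U a // Bd U i u w} ≤
      Nat.card {w : ∀ a, U a // ∃ Q : Ideal (MvPolynomial (Fin (m + k)) F),
      Q.IsPrime ∧ P ≤ Q ∧ (∀ l : Fin i, (w (Fin.castLE hi l) : MvPolynomial (Fin (m + k)) F) ∈ Q) ∧
        k + 1 ≤ dimQ Q ∧ m + k ≤ dimQ Q + i} := by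
    refine Nat.card_le_card_of_injective (Subtype.map id ?_) (Subtype.map_injective _ Function.injective_id)
    rintro w ⟨Q, q1, q2, q3, q4⟩
    exact ⟨Q, q1, hQ Q q2, fun l => q3 _ (by simp), by omega, by omega⟩
  have h2 : (Fintype.card F : ℝ≥0∞) ^ (k * h) * (Nat.card {w : ∀ a, U a // Bd U i u w} : ℝ≥0∞) ≤
      c i * ((m.factorial : ℝ≥0∞) * 2 ^ m) * ((∏ a, Nat.card (U a) : ℕ) : ℝ≥0∞) := by
    calc (Fintype.card F : ℝ≥0∞) ^ (k * h) * (Nat.card {w : ∀ a, U a // Bd U i u w} : ℝ≥0∞) 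
        ≤ (Fintype.card F : ℝ≥0∞) ^ (k * h) * ((Nat.card {w' : ∀ l : Fin i, U (Fin.castLE hi l) //
            ∃ Q : Ideal (MvPolynomial (Fin (m + k)) F),
      Q.IsPrime ∧ P ≤ Q ∧ (∀ l, (w' l : MvPolynomial (Fin (m + k)) F) ∈ Q) ∧ k + 1 ≤ dimQ Q ∧
        m + k ≤ dimQ Q + i} * R : ℕ) : ℝ≥0∞) := by
          gcongr
          exact h1.trans hR1
      _ = ((Fintype.card F : ℝ≥0∞) ^ (k * h) * (Nat.card {w' : ∀ l : Fin i, U (Fin.castLE hi l) //
            ∃ Q : Ideal (MvPolynomial (Fin (m + k)) F),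
      Q.IsPrime ∧ P ≤ Q ∧ (∀ l, (w' l : MvPolynomial (Fin (m + k)) F) ∈ Q) ∧ k + 1 ≤ dimQ Q ∧
        m + k ≤ dimQ Q + i} : ℝ≥0∞)) * R := by
          push_cast
          ring
      _ ≤ (c i * Deg wt m P * ∏ l : Fin i, (Nat.card (U (Fin.castLE hi l)) : ℝ≥0∞)) * R := by
          gcongr
      _ = (c i * Deg wt m P) * (((∏ l : Fin i, Nat.card (U (Fin.castLE hi l))) * R : ℕ) : ℝ≥0∞) := by
          push_cast
          ring
      _ ≤ c i * ((m.factorial : ℝ≥0∞) * 2 ^ m) * ((∏ a, Nat.card (U a) : ℕ) : ℝ≥0∞) := by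
          gcongr
  exact_mod_cast h2

theorem main (_hMONO : S_MONO) (hTOP : S_TOP) (hRAT : S_RAT) (hTR : S_TR) (hPOS : S_POS) (hQU : S_QU)
    (hRCI : S_RCI) (hFE : S_FE) (hFIB : S_FIB) : S_COM := by
  intro s e k hs hk
  set D := s ^ 2 + s + 2 with hDdef
  have hD : 1 ≤ D := by omega
  obtain ⟨c₁, hc₁⟩ := hRCI (s + e + k) D (D ^ 2)
  have hk1 : 1 ≤ k := by
    rcases Nat.eq_zero_or_pos k with rfl | h
    · simp at hk
    · exact h
  -- the number h' of the quadratic forms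
  have hch : 2 * (k + 3).choose 2 = (k + 3) * (k + 2) := by
    have := Nat.triangle_succ (k + 2)
    rw [Nat.choose_two_right, Nat.mul_div_cancel']
    · rfl
    · simpa using (Nat.even_mul_pred_self (k + 3)).two_dvd
  have hchs : k * s + (s ^ 2 + 2 + k) ≤ k * (k + 3).choose 2 := by
    have : k * (k + 3) * (k + 2) = 2 * (k * (k + 3).choose 2) := by
      calc k * (k + 3) * (k + 2) = k * ((k + 3) * (k + 2)) := by ring
        _ = k * (2 * (k + 3).choose 2) := by rw [hch]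
        _ = _ := by ring
    rw [this] at hk
    omega
  have hles : s ≤ (k + 3).choose 2 := by
    by_contra hcon
    push Not at hcon
    have : k * (k + 3).choose 2 ≤ k * s := Nat.mul_le_mul_left k hcon.le
    have : 0 < s ^ 2 + 2 + k := by omega
    omega
  obtain ⟨h', hh'⟩ : ∃ h', h' + s = (k + 3).choose 2 := ⟨(k + 3).choose 2 - s, by omega⟩
  have hkh : (s ^ 2 + 2) + k ≤ k * h' := by
    rw [← hh', mul_add] at hchs
    omega
  obtain ⟨c₂, hc₂⟩ := count_bad hFE hFIB hQU (s + e) k (2 * D) D s h'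
  refine ⟨(∑ i : Fin (s + e), c₂ i) * ((s + e).factorial * 2 ^ (s + e)) + c₁ (s + e + k), ?_⟩
  intro F _ _ U hU1 hU2
  have hwt : ∀ i, 1 ≤ wD s e k D i ∧ wD s e k D i ≤ D := fun i => ⟨wD_pos s e k D hD i, wD_le s e k D hD i⟩
  have hfin : ∀ a, Finite (U a) := by
    intro a
    rcases lt_or_ge (a : ℕ) (s + e) with ha | ha
    · exact finite_le (fun i => (hwt i).1) (hU1 a ha).1
    · exact finite_le (fun i => (hwt i).1) (hU2 a ha).1
  have hq : 0 < Fintype.card F := Fintype.card_pos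
  -- the bad event
  let B : (∀ a, U a) → Prop := fun w => ∃ iu : Fin (s + e) × (Fin k → F), Bd (m := s + e) U iu.1 iu.2 w
  have hB : Fintype.card F ^ (s ^ 2 + 2) * Nat.card {w : ∀ a, U a // B w} ≤
      ((∑ i : Fin (s + e), c₂ i) * ((s + e).factorial * 2 ^ (s + e))) * ∏ a, Nat.card (U a) := by
    have e1 : Nat.card {w : ∀ a, U a // B w} ≤ ∑ iu : Fin (s + e) × (Fin k → F),
        Nat.card {w : ∀ a, U a // Bd (m := s + e) U iu.1 iu.2 w} :=
      card_union (fun iu : Fin (s + e) × (Fin k → F) => Bd (m := s + e) U iu.1 iu.2)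
    have e2 : Fintype.card F ^ (k * h') * Nat.card {w : ∀ a, U a // B w} ≤
        Fintype.card F ^ k * (((∑ i : Fin (s + e), c₂ i) * ((s + e).factorial * 2 ^ (s + e))) *
          ∏ a, Nat.card (U a)) := by
      calc Fintype.card F ^ (k * h') * Nat.card {w : ∀ a, U a // B w}
          ≤ Fintype.card F ^ (k * h') * ∑ iu : Fin (s + e) × (Fin k → F),
              Nat.card {w : ∀ a, U a // Bd (m := s + e) U iu.1 iu.2 w} := Nat.mul_le_mul_left _ e1
        _ = ∑ iu : Fin (s + e) × (Fin k → F), Fintype.card F ^ (k * h') *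
              Nat.card {w : ∀ a, U a // Bd (m := s + e) U iu.1 iu.2 w} := by rw [Finset.mul_sum]
        _ ≤ ∑ iu : Fin (s + e) × (Fin k → F), c₂ iu.1 * ((s + e).factorial * 2 ^ (s + e)) *
              ∏ a, Nat.card (U a) := by
            refine Finset.sum_le_sum fun iu _ => ?_
            refine hc₂ F (wD s e k D) hwt ?_ hh'.le U hfin hU1 iu.1 iu.1.2 iu.2
            intro i
            exact Nat.mul_le_mul_left 2 (hwt i).2
        _ = _ := by
            rw [Fintype.sum_prod_type]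
            simp only [Finset.sum_const, Finset.card_univ, Fintype.card_pi, Finset.prod_const,
              Fintype.card_fin, smul_eq_mul]
            rw [← Finset.mul_sum, ← Finset.sum_mul, ← Finset.sum_mul]
    have e3 : Fintype.card F ^ (s ^ 2 + 2) * Fintype.card F ^ k ≤ Fintype.card F ^ (k * h') := by
      rw [← pow_add]
      exact Nat.pow_le_pow_right hq hkh
    have e4 : Fintype.card F ^ k * (Fintype.card F ^ (s ^ 2 + 2) * Nat.card {w : ∀ a, U a // B w}) ≤
        Fintype.card F ^ k * (((∑ i : Fin (s + e), c₂ i) * ((s + e).factorial * 2 ^ (s + e))) *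
          ∏ a, Nat.card (U a)) := by
      refine le_trans ?_ e2
      calc Fintype.card F ^ k * (Fintype.card F ^ (s ^ 2 + 2) * Nat.card {w : ∀ a, U a // B w})
          = (Fintype.card F ^ (s ^ 2 + 2) * Fintype.card F ^ k) * Nat.card {w : ∀ a, U a // B w} := by ring
        _ ≤ _ := Nat.mul_le_mul_right _ e3
    exact Nat.le_of_mul_le_mul_left e4 (pow_pos hq k)
  -- the other event
  obtain ⟨hdim0, hdeg0⟩ := hTOP F (s + e + k) (wD s e k D) (fun i => (hwt i).1)
  let d : Fin (s + e + k) → ℕ := fun i => wD s e k D i * (if (i : ℕ) < s + e then 2 else D ^ 2)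
  have hd1 : ∀ i : Fin (s + e + k), (i : ℕ) < s + e → d i = 2 * D := by
    intro i hi
    simp only [d, wD, if_pos hi]
    ring
  have hd2 : ∀ i : Fin (s + e + k), s + e ≤ (i : ℕ) → d i = D ^ 2 := by
    intro i hi
    simp only [d, wD, if_neg (not_lt.mpr hi)]
    ring
  have hD2 : 2 ≤ D := by omega
  have hmain := hc₁ F (wD s e k D) hwt (s + e + k) (s ^ 2 + 2) ⊥ Ideal.isPrime_bot hdim0 U d
    (by
      intro i
      rcases lt_or_ge (i : ℕ) (s + e) with hi | hi
      · rw [hd1 i hi]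
        exact (hU1 i hi).1
      · rw [hd2 i hi]
        exact (hU2 i hi).1)
    (by
      intro i
      rcases lt_or_ge (i : ℕ) (s + e) with hi | hi
      · rw [hd1 i hi]
        constructor
        · omega
        · nlinarith
      · rw [hd2 i hi]
        constructor
        · nlinarith
        · exact le_rfl)
    B
    (by
      intro w hw i Q hQ _ hl hdQ
      rcases lt_or_ge (i : ℕ) (s + e) with hi | hi
      · by_cases htr : ∃ a : Fin (s + e + k), s + e ≤ (a : ℕ) ∧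
            Transcendental F (Ideal.Quotient.mk Q (X a))
        · obtain ⟨a, ha, hta⟩ := htr
          left
          refine hTR F (s + e + k) D (2 * D) s (wD s e k D) (fun i => (hwt i).1) Q (U i) a hQ hta ?_
            (hU1 i hi).1 (hU1 i hi).2 (s ^ 2 + 2) (by omega)
          simp only [wD, if_neg (not_lt.mpr ha)]
          omega
        · right
          intro y hy
          apply hw
          refine ⟨(⟨i, hi⟩, fun j => y (Fin.natAdd (s + e) j)), Q, hQ, ?_, ?_, hdQ⟩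
          · intro a ha
            rw [yv_eq y a ha]
            refine hRAT F (s + e + k) Q y a hQ hy ?_
            by_contra hna
            exact htr ⟨a, ha, hna⟩
          · intro l hli
            exact hl l hli
      · left
        obtain ⟨a, hta⟩ := hPOS F (s + e + k) Q hQ (by have := i.2; omega)
        refine hTR F (s + e + k) D (D ^ 2) s (wD s e k D) (fun i => (hwt i).1) Q (U i) a hQ hta ?_
            (hU2 i hi).1 (hU2 i hi).2 (s ^ 2 + 2) (by omega)
        rw [pow_two]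
        exact Nat.mul_le_mul_right D (hwt a).2)
  -- the degree of the zero ideal
  have hprodwt : (1 : ℝ≥0∞) ≤ ∏ i, (wD s e k D i : ℝ≥0∞) := by
    have : 1 ≤ ∏ i, wD s e k D i := Finset.one_le_prod' (fun i _ => (hwt i).1)
    exact_mod_cast this
  have hDeg1 : Deg (wD s e k D) (s + e + k) (⊥ : Ideal (MvPolynomial (Fin (s + e + k)) F)) ≤ 1 := by
    calc Deg (wD s e k D) (s + e + k) (⊥ : Ideal (MvPolynomial (Fin (s + e + k)) F))
        = Deg (wD s e k D) (s + e + k) (⊥ : Ideal (MvPolynomial (Fin (s + e + k)) F)) * 1 := by rw [mul_one]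
      _ ≤ Deg (wD s e k D) (s + e + k) (⊥ : Ideal (MvPolynomial (Fin (s + e + k)) F)) *
          ∏ i, (wD s e k D i : ℝ≥0∞) := by gcongr
      _ ≤ 1 := hdeg0
  have hDeg2 : Deg (wD s e k D) (s + e + k) (⊥ : Ideal (MvPolynomial (Fin (s + e + k)) F)) *
      ∏ i, (d i : ℝ≥0∞) ≤ ((2 ^ (s + e) * D ^ (2 * k) : ℕ) : ℝ≥0∞) := by
    have hg : ∏ i : Fin (s + e + k), (if (i : ℕ) < s + e then 2 else D ^ 2) =
        2 ^ (s + e) * D ^ (2 * k) := by
      rw [Fin.prod_univ_add]
      simp [pow_mul]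
    have hdd : ∏ i, (d i : ℝ≥0∞) = (∏ i, (wD s e k D i : ℝ≥0∞)) *
        ((2 ^ (s + e) * D ^ (2 * k) : ℕ) : ℝ≥0∞) := by
      rw [← hg]
      push_cast
      rw [← Finset.prod_mul_distrib]
      refine Finset.prod_congr rfl fun i _ => ?_
      simp only [d]
      push_cast
      rfl
    rw [hdd, ← mul_assoc]
    calc Deg (wD s e k D) (s + e + k) (⊥ : Ideal (MvPolynomial (Fin (s + e + k)) F)) *
          (∏ i, (wD s e k D i : ℝ≥0∞)) * ((2 ^ (s + e) * D ^ (2 * k) : ℕ) : ℝ≥0∞)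
        ≤ 1 * ((2 ^ (s + e) * D ^ (2 * k) : ℕ) : ℝ≥0∞) := by gcongr
      _ = _ := one_mul _
  have hA : Fintype.card F ^ (s ^ 2 + 2) * Nat.card {w : ∀ i, U i // ¬ B w ∧
      Deg (wD s e k D) (s + e + k) (⊥ : Ideal (MvPolynomial (Fin (s + e + k)) F)) *
      ∏ i, (d i : ℝ≥0∞) < (Set.ncard {y : Fin (s + e + k) → F |
        Van (⊥ : Ideal (MvPolynomial (Fin (s + e + k)) F)) y ∧
      ∀ i, eval y (w i : MvPolynomial (Fin (s + e + k)) F) = 0} : ℝ≥0∞)} ≤
      c₁ (s + e + k) * ∏ i, Nat.card (U i) := by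
    have : (Fintype.card F : ℝ≥0∞) ^ (s ^ 2 + 2) * (Nat.card {w : ∀ i, U i // ¬ B w ∧
      Deg (wD s e k D) (s + e + k) (⊥ : Ideal (MvPolynomial (Fin (s + e + k)) F)) *
      ∏ i, (d i : ℝ≥0∞) < (Set.ncard {y : Fin (s + e + k) → F |
        Van (⊥ : Ideal (MvPolynomial (Fin (s + e + k)) F)) y ∧
      ∀ i, eval y (w i : MvPolynomial (Fin (s + e + k)) F) = 0} : ℝ≥0∞)} : ℝ≥0∞) ≤
      c₁ (s + e + k) * 1 * ∏ i, (Nat.card (U i) : ℝ≥0∞) := hmain.trans (by gcongr)
    rw [mul_one] at this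
    exact_mod_cast this
  have hsub : Nat.card {w : ∀ i, U i //
      2 ^ (s + e) * D ^ (2 * k) < Set.ncard {y : Fin (s + e + k) → F |
      ∀ i, eval y (w i : MvPolynomial (Fin (s + e + k)) F) = 0}} ≤
      Nat.card {w : ∀ a, U a // B w} + Nat.card {w : ∀ i, U i // ¬ B w ∧
      Deg (wD s e k D) (s + e + k) (⊥ : Ideal (MvPolynomial (Fin (s + e + k)) F)) *
      ∏ i, (d i : ℝ≥0∞) < (Set.ncard {y : Fin (s + e + k) → F |
        Van (⊥ : Ideal (MvPolynomial (Fin (s + e + k)) F)) y ∧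
      ∀ i, eval y (w i : MvPolynomial (Fin (s + e + k)) F) = 0} : ℝ≥0∞)} := by
    classical
    rw [← Nat.card_sum]
    refine Nat.card_le_card_of_injective (fun w => if hb : B w.1 then Sum.inl ⟨w.1, hb⟩ else
      Sum.inr ⟨w.1, hb, ?_⟩) ?_
    · refine lt_of_le_of_lt hDeg2 ?_
      have h0 := w.2
      have hv : {y : Fin (s + e + k) → F | Van (⊥ : Ideal (MvPolynomial (Fin (s + e + k)) F)) y ∧
          ∀ i, eval y (w.1 i : MvPolynomial (Fin (s + e + k)) F) = 0} =
          {y : Fin (s + e + k) → F | ∀ i, eval y (w.1 i : MvPolynomial (Fin (s + e + k)) F) = 0} := by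
        ext y
        simp only [Set.mem_ofPred_eq, and_iff_right_iff_imp]
        intro _ p hp
        rw [Ideal.mem_bot] at hp
        rw [hp, map_zero]
      rw [hv]
      exact_mod_cast h0
    · rintro ⟨w, hw⟩ ⟨w', hw'⟩ h
      apply Subtype.ext
      by_cases hb : B w <;> by_cases hb' : B w' <;> simp [hb, hb'] at h
      · exact h
      · exact h
  calc Fintype.card F ^ (s ^ 2 + 2) * Nat.card {w : ∀ i, U i //
      2 ^ (s + e) * D ^ (2 * k) < Set.ncard {y : Fin (s + e + k) → F |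
      ∀ i, eval y (w i : MvPolynomial (Fin (s + e + k)) F) = 0}}
      ≤ Fintype.card F ^ (s ^ 2 + 2) * (Nat.card {w : ∀ a, U a // B w} + Nat.card {w : ∀ i, U i // ¬ B w ∧
      Deg (wD s e k D) (s + e + k) (⊥ : Ideal (MvPolynomial (Fin (s + e + k)) F)) *
      ∏ i, (d i : ℝ≥0∞) < (Set.ncard {y : Fin (s + e + k) → F |
        Van (⊥ : Ideal (MvPolynomial (Fin (s + e + k)) F)) y ∧
      ∀ i, eval y (w i : MvPolynomial (Fin (s + e + k)) F) = 0} : ℝ≥0∞)}) := Nat.mul_le_mul_left _ hsub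
    _ ≤ _ := by
      rw [mul_add, add_mul]
      exact Nat.add_le_add hB hA

end Pool.Agent.N678.BK.COM
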